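import Pool.Agent.UL4.Stmts

/-!
Squad UL4 (MP_c7c9bf_co), row SEG: one segment.
-/

set_option autoImplicit false

namespace Pool.Agent.UL4.H94

open MeasureTheory Set Pool.Agent.UL4

theorem int2 (c d p k : ℝ) : ∫ t in c..d, (p + k * (t - c)) ^ 2
    = p ^ 2 * (d - c) + p * k * (d - c) ^ 2 + k ^ 2 * (d - c) ^ 3 / 3 := by
  have h1 : ∀ t ∈ uIcc c d, HasDerivAt
      (fun t : ℝ => p ^ 2 * (t - c) + p * k * (t - c) ^ 2 + k ^ 2 * (t - c) ^ 3 / 3)
      ((p + k * (t - c)) ^ 2) t := by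
    intro t _
    have h2 : HasDerivAt (fun t : ℝ => t - c) 1 t := (hasDerivAt_id t).sub_const c
    have h3 := ((h2.const_mul (p ^ 2)).add ((h2.pow 2).const_mul (p * k))).add
      (((h2.pow 3).const_mul (k ^ 2)).div_const 3)
    refine h3.congr_deriv ?_
    push_cast
    ring
  rw [intervalIntegral.integral_eq_sub_of_hasDerivAt h1
    (Continuous.intervalIntegrable (by fun_prop) _ _)]
  ring

theorem int4 (c d p k : ℝ) : ∫ t in c..d, (p + k * (t - c)) ^ 4
    = p ^ 4 * (d - c) + 2 * p ^ 3 * k * (d - c) ^ 2 + 2 * p ^ 2 * k ^ 2 * (d - c) ^ 3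
      + p * k ^ 3 * (d - c) ^ 4 + k ^ 4 * (d - c) ^ 5 / 5 := by
  have h1 : ∀ t ∈ uIcc c d, HasDerivAt
      (fun t : ℝ => p ^ 4 * (t - c) + 2 * p ^ 3 * k * (t - c) ^ 2 + 2 * p ^ 2 * k ^ 2 * (t - c) ^ 3
      + p * k ^ 3 * (t - c) ^ 4 + k ^ 4 * (t - c) ^ 5 / 5)
      ((p + k * (t - c)) ^ 4) t := by
    intro t _
    have h2 : HasDerivAt (fun t : ℝ => t - c) 1 t := (hasDerivAt_id t).sub_const c
    have h3 := ((((h2.const_mul (p ^ 4)).add ((h2.pow 2).const_mul (2 * p ^ 3 * k))).add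
      ((h2.pow 3).const_mul (2 * p ^ 2 * k ^ 2))).add ((h2.pow 4).const_mul (p * k ^ 3))).add
      (((h2.pow 5).const_mul (k ^ 4)).div_const 5)
    refine h3.congr_deriv ?_
    push_cast
    ring
  rw [intervalIntegral.integral_eq_sub_of_hasDerivAt h1
    (Continuous.intervalIntegrable (by fun_prop) _ _)]
  ring

/-- **Row SEG.** -/
theorem seg : SegStmt := by
  intro F c d p q M ρ hcd hF hC hp hq hpc hqd hpρ hqρ hM
  rcases eq_or_lt_of_le hcd with h | h
  · subst h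
    simp
  have hdc : 0 < d - c := sub_pos.2 h
  set k : ℝ := (q - p) / (d - c) with hk
  have hkd : k * (d - c) = q - p := by
    rw [hk]
    field_simp
  have hLe : ∀ t ∈ Icc c d, 0 ≤ p + k * (t - c) ∧ p + k * (t - c) ≤ ρ ∧
      p + k * (t - c) ≤ F t := by
    intro t ht
    set θ : ℝ := (t - c) / (d - c) with hθ
    have hθ0 : 0 ≤ θ := div_nonneg (sub_nonneg.2 ht.1) hdc.le
    have hθ1 : θ ≤ 1 := (div_le_one hdc).2 (by linarith [ht.2])
    have hθd : θ * (d - c) = t - c := by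
      rw [hθ]
      field_simp
    have e1 : p + k * (t - c) = (1 - θ) * p + θ * q := by
      rw [← hθd]
      have : k * (θ * (d - c)) = θ * (k * (d - c)) := by ring
      rw [this, hkd]
      ring
    have h1 := hC.2 (left_mem_Icc.2 hcd) (right_mem_Icc.2 hcd) (sub_nonneg.2 hθ1) hθ0
      (by ring : (1 - θ) + θ = 1)
    simp only [smul_eq_mul] at h1
    have e2 : (1 - θ) * c + θ * d = t := by linarith [hθd]
    rw [e2] at h1
    have h0 : 0 ≤ 1 - θ := sub_nonneg.2 hθ1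
    refine ⟨?_, ?_, ?_⟩
    · rw [e1]
      positivity
    · rw [e1]
      nlinarith [mul_le_mul_of_nonneg_left hpρ h0, mul_le_mul_of_nonneg_left hqρ hθ0]
    · rw [e1]
      nlinarith [mul_le_mul_of_nonneg_left hpc h0, mul_le_mul_of_nonneg_left hqd hθ0]
  have hI2 : ∫ t in c..d, (p + k * (t - c)) ^ 2 = (d - c) * (p ^ 2 + p * q + q ^ 2) / 3 := by
    rw [int2]
    have e : q = p + k * (d - c) := by rw [hkd]; ring
    rw [e]
    ring
  have hI4 : ∫ t in c..d, (p + k * (t - c)) ^ 4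
      = (d - c) * (p ^ 4 + p ^ 3 * q + p ^ 2 * q ^ 2 + p * q ^ 3 + q ^ 4) / 5 := by
    rw [int4]
    have e : q = p + k * (d - c) := by rw [hkd]; ring
    rw [e]
    ring
  have hFi : ∀ n : ℕ, IntervalIntegrable (fun t => F t ^ n) volume c d := by
    intro n
    refine ContinuousOn.intervalIntegrable ?_
    rw [uIcc_of_le hcd]
    exact hF.pow n
  have hLi : ∀ n : ℕ, IntervalIntegrable (fun t => (p + k * (t - c)) ^ n) volume c d :=
    fun n => Continuous.intervalIntegrable (by fun_prop) _ _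
  refine ⟨?_, ?_⟩
  · rw [← hI2]
    refine intervalIntegral.integral_mono_on hcd (hLi 2) (hFi 2) ?_
    intro t ht
    obtain ⟨h1, h2, h3⟩ := hLe t ht
    exact pow_le_pow_left₀ h1 h3 2
  · rw [← hI2, ← hI4]
    have e1 : (∫ t in c..d, F t ^ 2) - ∫ t in c..d, (p + k * (t - c)) ^ 2
        = ∫ t in c..d, (F t ^ 2 - (p + k * (t - c)) ^ 2) :=
      (intervalIntegral.integral_sub (hFi 2) (hLi 2)).symm
    rw [e1, ← intervalIntegral.integral_const_mul, ← intervalIntegral.integral_add (hLi 4)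
      (((hFi 2).sub (hLi 2)).const_mul _)]
    refine intervalIntegral.integral_mono_on hcd (hFi 4)
      ((hLi 4).add (((hFi 2).sub (hLi 2)).const_mul _)) ?_
    intro t ht
    obtain ⟨h1, h2, h3⟩ := hLe t ht
    have h4 : 0 ≤ F t ^ 2 - (p + k * (t - c)) ^ 2 :=
      sub_nonneg.2 (pow_le_pow_left₀ h1 h3 2)
    have h5 : F t ^ 2 ≤ M ^ 2 := pow_le_pow_left₀ (h1.trans h3) (hM t ht) 2
    have h6 : (p + k * (t - c)) ^ 2 ≤ ρ ^ 2 := pow_le_pow_left₀ h1 h2 2
    have h7 := mul_le_mul_of_nonneg_right (add_le_add h5 h6) h4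
    have e2 : F t ^ 4 - (p + k * (t - c)) ^ 4
        = (F t ^ 2 + (p + k * (t - c)) ^ 2) * (F t ^ 2 - (p + k * (t - c)) ^ 2) := by ring
    show F t ^ 4 ≤ (p + k * (t - c)) ^ 4 + (M ^ 2 + ρ ^ 2) * (F t ^ 2 - (p + k * (t - c)) ^ 2)
    linarith

end Pool.Agent.UL4.H94
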